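import Pool.Agent.Helper86.LP.Conv
import Pool.Agent.Helper86.LP.StarNB
import Pool.Agent.Helper47.LB.Star
import Pool.Agent.Helper47.LB.Op
import Pool.Agent.Helper85.LP.Defs

/-!
The gain `DE e c d s` of a star with `s` leaves, for a kernel whose moments vanish up to the degree `b d` (`b` small), and
the norms of the stars.
-/

set_option autoImplicit false

open MeasureTheory Finset
open scoped RealInnerProductSpace

namespace Pool.Agent.Helper86.LQ

open Pool.Agent.Helper47.KP (Bd pim sig Sph EE den PP Par PP_zero integral_PP_den)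
open Pool.Agent.Helper47.LB
open Pool.Agent.Helper86.LP (QQ QQ_nonneg phi phi_pow_le star_of_conv integrable_den den_prob)

/-- the gain of a star with `s` leaves -/
noncomputable def DE (e c : ℝ) (d s : ℕ) : ℝ :=
  if s = 0 then 1 else min ((2 : ℝ) ^ (-e * d)) ((1 + c * s) ^ (-c * d))

lemma DE_zero (e c : ℝ) (d : ℕ) : DE e c d 0 = 1 := by simp [DE]

lemma DE_pos {e c : ℝ} (hc : 0 ≤ c) (d s : ℕ) : 0 < DE e c d s := by
  unfold DE
  split_ifs
  · norm_num
  · apply lt_min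
    · positivity
    · have : (0 : ℝ) < 1 + c * s := by positivity
      exact Real.rpow_pos_of_pos this _

lemma DE_nonneg {e c : ℝ} (hc : 0 ≤ c) (d s : ℕ) : 0 ≤ DE e c d s := (DE_pos hc d s).le

lemma DE_le_one {e c : ℝ} (he : 0 ≤ e) (d s : ℕ) : DE e c d s ≤ 1 := by
  unfold DE
  split_ifs
  · norm_num
  · refine (min_le_left _ _).trans ?_
    apply Real.rpow_le_one_of_one_le_of_nonpos (by norm_num)
    have : (0 : ℝ) ≤ d := Nat.cast_nonneg d
    nlinarith

lemma DE_le_left {e c : ℝ} {d s : ℕ} (hs : 1 ≤ s) : DE e c d s ≤ (2 : ℝ) ^ (-e * d) := by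
  unfold DE
  rw [if_neg (by omega)]
  exact min_le_left _ _

lemma DE_le_right {e c : ℝ} {d s : ℕ} (hs : 1 ≤ s) : DE e c d s ≤ (1 + c * s) ^ (-c * d) := by
  unfold DE
  rw [if_neg (by omega)]
  exact min_le_right _ _

lemma DE_mul_le {e c : ℝ} (he : 0 ≤ e) (hc : 0 ≤ c) (d a b : ℕ) :
    DE e c d a * DE e c d b ≤ DE e c d (a + b) := by
  rcases Nat.eq_zero_or_pos a with rfl | ha
  · rw [DE_zero, one_mul, zero_add]
  rcases Nat.eq_zero_or_pos b with rfl | hb
  · rw [DE_zero, mul_one, add_zero]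
  have hd : (0 : ℝ) ≤ d := Nat.cast_nonneg d
  have ha0 : (0 : ℝ) ≤ a := Nat.cast_nonneg a
  have hb0 : (0 : ℝ) ≤ b := Nat.cast_nonneg b
  conv_rhs => unfold DE
  rw [if_neg (by omega)]
  apply le_min
  · calc DE e c d a * DE e c d b ≤ (2 : ℝ) ^ (-e * d) * 1 :=
          mul_le_mul (DE_le_left ha) (DE_le_one he d b) (DE_nonneg hc d b) (by positivity)
      _ = _ := mul_one _
  · have p1 : (0 : ℝ) < 1 + c * a := by positivity
    have p2 : (0 : ℝ) < 1 + c * b := by positivity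
    calc DE e c d a * DE e c d b ≤ (1 + c * a) ^ (-c * d) * (1 + c * b) ^ (-c * d) :=
          mul_le_mul (DE_le_right ha) (DE_le_right hb) (DE_nonneg hc d b) (Real.rpow_nonneg p1.le _)
      _ = ((1 + c * a) * (1 + c * b)) ^ (-c * d) := by
          rw [Real.mul_rpow p1.le p2.le]
      _ ≤ (1 + c * ((a + b : ℕ) : ℝ)) ^ (-c * d) := by
          apply Real.rpow_le_rpow_of_nonpos (by positivity)
          · push_cast
            nlinarith [mul_nonneg ha0 hb0, mul_nonneg (mul_nonneg hc ha0) (mul_nonneg hc hb0)]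
          · nlinarith [mul_nonneg hc hd]

/-- for few leaves the first bound is the smaller one -/
lemma DE_small {e c : ℝ} (hc : 0 ≤ c) (hce : c ≤ e) {d s : ℕ} (hs : 1 ≤ s) (hs2 : c * s ≤ 1) :
    DE e c d s = (2 : ℝ) ^ (-e * d) := by
  unfold DE
  rw [if_neg (by omega), min_eq_left]
  have hd : (0 : ℝ) ≤ d := Nat.cast_nonneg d
  have hs0 : (0 : ℝ) ≤ s := Nat.cast_nonneg s
  have p1 : (0 : ℝ) < 1 + c * s := by positivity
  calc (2 : ℝ) ^ (-e * d) ≤ (2 : ℝ) ^ (-c * d) := by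
        apply Real.rpow_le_rpow_of_exponent_le (by norm_num)
        nlinarith
    _ ≤ (1 + c * s) ^ (-c * d) := by
        apply Real.rpow_le_rpow_of_nonpos p1
        · linarith
        · nlinarith [mul_nonneg hc hd]

/-- for many leaves the bound of Beta type is small enough -/
lemma QQ_smallE {D d s M n : ℕ} (hdD : d = D + 4) (hd : 8 ≤ d) {b c v : ℝ} (hb : 0 < b) (hc : 0 ≤ c)
    (hcb : c ≤ b / 2) (hc16 : c ≤ 1 / 16) (hn : b * ((d : ℝ) - 2) ≤ n + 1) (hs : 14 ≤ b * s)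
    (hM : (n + 1) * s ≤ 2 * M + 1) (hv : ((3 : ℝ) / 4) ^ ((d : ℝ) / 2) ≤ v) :
    QQ D M ≤ v * ((1 + c * s) ^ (-c * d)) ^ 2 := by
  have hd' : (8 : ℝ) ≤ d := by exact_mod_cast hd
  have hs0 : (0 : ℝ) ≤ s := Nat.cast_nonneg s
  have hD : (D : ℝ) + 2 = d - 2 := by rw [hdD]; push_cast; ring
  set x : ℝ := 1 + b * s / 2 with hx
  have hx8 : 8 ≤ x := by rw [hx]; linarith
  have hx0 : 0 < x := by linarith
  have hx1 : 1 ≤ x := by linarith
  -- the base
  have hM' : ((n : ℝ) + 1) * s ≤ 2 * M + 1 := by exact_mod_cast hM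
  have hbase : x ≤ 1 + M / (((D : ℝ) + 2) / 2) := by
    rw [hD]
    have hpos : (0 : ℝ) < (d - 2) / 2 := by linarith
    have h2 : 1 + (M : ℝ) / (((d : ℝ) - 2) / 2) = (((d : ℝ) - 2) / 2 + M) / (((d : ℝ) - 2) / 2) := by
      rw [add_div, div_self hpos.ne']
    rw [h2, le_div_iff₀ hpos, hx]
    have h3 : b * ((d : ℝ) - 2) * s ≤ 2 * M + 1 := (mul_le_mul_of_nonneg_right hn hs0).trans hM'
    nlinarith
  have hQ : QQ D M ≤ x ^ (-(((d : ℝ) - 2) / 2)) := by
    unfold QQ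
    rw [hD] at hbase ⊢
    apply Real.rpow_le_rpow_of_nonpos hx0 hbase
    linarith
  -- split of the exponent
  have h4 : x ^ (-(((d : ℝ) - 2) / 2)) ≤ x ^ (-((d : ℝ) / 4)) * x ^ (-((d : ℝ) / 8)) := by
    rw [← Real.rpow_add hx0]
    apply Real.rpow_le_rpow_of_exponent_le hx1
    linarith
  have h5 : x ^ (-((d : ℝ) / 4)) ≤ v := by
    refine le_trans ?_ hv
    have e1 : x ^ (-((d : ℝ) / 4)) ≤ (8 : ℝ) ^ (-((d : ℝ) / 4)) :=
      Real.rpow_le_rpow_of_nonpos (by norm_num) hx8 (by linarith)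
    refine e1.trans ?_
    have e2 : ((3 : ℝ) / 4) ^ ((d : ℝ) / 2) = ((9 : ℝ) / 16) ^ ((d : ℝ) / 4) := by
      rw [show ((9 : ℝ) / 16) = (3 / 4) ^ (2 : ℝ) by norm_num, ← Real.rpow_mul (by norm_num)]
      congr 1; ring
    have e3 : (8 : ℝ) ^ (-((d : ℝ) / 4)) = (1 / 8 : ℝ) ^ ((d : ℝ) / 4) := by
      rw [Real.rpow_neg (by norm_num), ← Real.inv_rpow (by norm_num)]
      norm_num
    rw [e2, e3]
    exact Real.rpow_le_rpow (by norm_num) (by norm_num) (by linarith)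
  have p1 : (0 : ℝ) < 1 + c * s := by positivity
  have h6 : x ^ (-((d : ℝ) / 8)) ≤ ((1 + c * s) ^ (-c * d)) ^ 2 := by
    have e5 : ((1 + c * s) ^ (-c * d)) ^ 2 = (1 + c * s) ^ (-(2 * c) * (d : ℝ)) := by
      rw [← Real.rpow_natCast, ← Real.rpow_mul p1.le]
      congr 1
      push_cast
      ring
    rw [e5]
    have h7 : 1 + c * s ≤ x := by
      rw [hx]
      nlinarith
    calc x ^ (-((d : ℝ) / 8)) ≤ (1 + c * s) ^ (-((d : ℝ) / 8)) :=
          Real.rpow_le_rpow_of_nonpos p1 h7 (by linarith)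
      _ ≤ (1 + c * s) ^ (-(2 * c) * (d : ℝ)) := by
          apply Real.rpow_le_rpow_of_exponent_le
          · nlinarith [mul_nonneg hc hs0]
          · nlinarith
  have hv0 : 0 ≤ v := le_trans (by positivity) hv
  refine hQ.trans (h4.trans ?_)
  exact mul_le_mul h5 h6 (Real.rpow_nonneg hx0.le _) hv0

/-- the star kernel with many leaves -/
lemma star_newE {D d : ℕ} (hdD : d = D + 4) [NeZero d] (hd : 8 ≤ d) {g : ℝ → ℝ}
    (hgm : Measurable g) (hgs : ∀ t, |g t - 1| ≤ 1) (hgI : ∫ t, g t ∂(den d) = 1) {b c v : ℝ} (hb : 0 < b)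
    (hc : 0 ≤ c) (hcb : c ≤ b / 2) (hc16 : c ≤ 1 / 16) (hv : ((3 : ℝ) / 4) ^ ((d : ℝ) / 2) ≤ v)
    (hgv : ∫ t, (g t - 1) ^ 2 ∂(den d) ≤ v) (hv1 : v ≤ 1) {n : ℕ} (hn : b * ((d : ℝ) - 2) ≤ n + 1)
    (hg0 : ∀ j, 1 ≤ j → j ≤ n → ∫ t, g t * (PP d j).eval t ∂(den d) = 0)
    {s : ℕ} (hs1 : 1 ≤ s) (hs : 14 ≤ b * s) :
    NB (pis (sig d) (Fin s)) (sig d)
      (fun a y => ∏ i, (g ⟪(a i : EE d), (y : EE d)⟫ - 1))
      (√v ^ (s + 1) * (1 + c * s) ^ (-c * d)) := by
  have hd3 : 3 ≤ d := by omega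
  have hprob := den_prob hd3
  have hV0 : 0 < v := lt_of_lt_of_le (by positivity) hv
  have hgb : ∀ t, |g t| ≤ 2 := by
    intro t
    have := abs_add_le (g t - 1) 1
    rw [sub_add_cancel, abs_one] at this
    linarith [hgs t]
  have hgi : Integrable g (den d) := Integrable.of_bound hgm.aestronglyMeasurable 2
    (Filter.Eventually.of_forall fun x => by rw [Real.norm_eq_abs]; exact hgb x)
  set h : ℝ → ℝ := fun t => g t - 1 with hh
  have hhm : Measurable h := hgm.sub_const 1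
  have h0 : ∀ j ≤ n, ∫ t, h t * (PP d j).eval t ∂(den d) = 0 := by
    intro j hj
    have i1 : Integrable (fun t => (PP d j).eval t) (den d) := integrable_den (PP d j).continuous d
    have i2 : Integrable (fun t => g t * (PP d j).eval t) (den d) :=
      i1.bdd_mul hgm.aestronglyMeasurable
        (Filter.Eventually.of_forall fun x => by rw [Real.norm_eq_abs]; exact hgb x)
    have e : ∫ t, h t * (PP d j).eval t ∂(den d) =
        ∫ t, g t * (PP d j).eval t ∂(den d) - ∫ t, (PP d j).eval t ∂(den d) := by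
      rw [← integral_sub i2 i1]
      congr 1; funext t; simp only [hh]; ring
    rw [e]
    rcases Nat.eq_zero_or_pos j with rfl | hj1
    · rw [PP_zero]
      simp only [Polynomial.eval_one, mul_one]
      rw [hgI]
      simp
    · rw [hg0 j hj1 hj, integral_PP_den hd3 hj1, sub_zero]
  set M := ((n + 1) * s) / 2 with hM
  have hM1 : 2 * M ≤ (n + 1) * s := by rw [hM]; exact Nat.mul_div_le _ _
  have hM2 : (n + 1) * s ≤ 2 * M + 1 := by rw [hM]; omega
  have key : ∀ y : Sph d, ∫ y' : Sph d, |∫ a : Sph d, (g ⟪(a : EE d), (y : EE d)⟫ - 1) *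
      (g ⟪(a : EE d), (y' : EE d)⟫ - 1) ∂(sig d)| ^ s ∂(sig d) ≤ v ^ s * QQ D M := by
    intro y
    have h1 := phi_pow_le hdD hhm hgs h0 hV0.le hv1 hgv (s := s) (M := M) hs1 hM1 y
    refine le_trans (le_of_eq ?_) h1
    congr 1; funext y'
    unfold phi
    congr 2
    congr 1; funext a
    simp only [hh]
    rw [real_inner_comm (a : EE d) (y : EE d), real_inner_comm (a : EE d) (y' : EE d)]
  have bk : Bd fun p : Sph d × Sph d => g ⟪(p.1 : EE d), (p.2 : EE d)⟫ - 1 :=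
    ⟨(hgm.comp Pool.Agent.Helper47.KP.continuous_inner2.measurable).sub_const 1, 1,
      fun p => hgs _⟩
  have hNB := star_of_conv (σ := sig d) (k := fun x y : Sph d => g ⟪(x : EE d), (y : EE d)⟫ - 1)
    bk s key
  refine hNB.mono ?_
  set x : ℝ := (1 + c * s) ^ (-c * d) with hx
  have hx0 : 0 ≤ x := by rw [hx]; positivity
  have h2 := QQ_smallE hdD hd hb hc hcb hc16 hn hs hM2 hv
  have h3 : v ^ s * QQ D M ≤ (√v ^ (s + 1) * x) ^ 2 := by
    have e1 : (√v ^ (s + 1) * x) ^ 2 = v ^ s * (v * x ^ 2) := by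
      rw [mul_pow, ← pow_mul, mul_comm (s + 1) 2, pow_mul, Real.sq_sqrt hV0.le, pow_succ]
      ring
    rw [e1]
    exact mul_le_mul_of_nonneg_left h2 (pow_nonneg hV0.le s)
  calc √(v ^ s * QQ D M) ≤ √((√v ^ (s + 1) * x) ^ 2) := Real.sqrt_le_sqrt h3
    _ = √v ^ (s + 1) * x :=
        Real.sqrt_sq (mul_nonneg (pow_nonneg (Real.sqrt_nonneg _) _) hx0)

/-- the constant of the stars -/
noncomputable def cE (b e : ℝ) : ℝ := min (b / 14) (min e (1 / 16))

lemma cE_pos {b e : ℝ} (hb : 0 < b) (he : 0 < e) : 0 < cE b e := by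
  unfold cE
  positivity

/-- **M3**: the stars of a kernel whose moments vanish up to the degree `b d`, with the norm `v 2^(-e d)` -/
theorem kerD_E {d : ℕ} [NeZero d] (hd : 8 ≤ d) {g : ℝ → ℝ} (hgm : Measurable g)
    (hgI : ∫ t, g t ∂(den d) = 1) {b e v G ε : ℝ} (hb : 0 < b) (he : 0 < e)
    (hv : ((3 : ℝ) / 4) ^ ((d : ℝ) / 2) ≤ v) {n : ℕ} (hn : b * ((d : ℝ) - 2) ≤ n + 1)
    (hg0 : ∀ j, 1 ≤ j → j ≤ n → ∫ t, g t * (PP d j).eval t ∂(den d) = 0)
    (hgs : ∀ t, |g t - 1| ≤ 1) (hgv : ∫ t, (g t - 1) ^ 2 ∂(den d) ≤ v)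
    (hk : Ker (sig d) (fun x y : Sph d => g ⟪(x : EE d), (y : EE d)⟫) G v ε)
    (hε : ε ≤ v * (2 : ℝ) ^ (-e * d)) :
    Pool.Agent.Helper85.LP.KerD (sig d) (fun x y : Sph d => g ⟪(x : EE d), (y : EE d)⟫) G v ε
      (DE e (cE b e) d) where
  ker := hk
  star := by
    intro s hs
    have hc0 := (cE_pos hb he).le
    have hV0 : 0 < v := hk.v0
    -- the first bound
    have hold : NB (pis (sig d) (Fin s)) (sig d)
        (fun a y => ∏ i, (g ⟪(a i : EE d), (y : EE d)⟫ - 1))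
        (√v ^ (s + 1) * (2 : ℝ) ^ (-e * d)) := by
      obtain ⟨p, rfl⟩ : ∃ p, s = p + 1 := ⟨s - 1, by omega⟩
      have h1 := star_NB hk p (Fin (p + 1)) (Fintype.card_fin _)
      refine h1.mono ?_
      have e1 : √v ^ (p + 1 + 1) = √v ^ p * v := by
        rw [pow_succ, pow_succ, mul_assoc, Real.mul_self_sqrt hV0.le]
      have hp0 : 0 ≤ √v ^ p := pow_nonneg (Real.sqrt_nonneg _) _
      rw [e1]
      calc ε * √v ^ p ≤ (v * (2 : ℝ) ^ (-e * d)) * √v ^ p := mul_le_mul_of_nonneg_right hε hp0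
        _ = √v ^ p * v * (2 : ℝ) ^ (-e * d) := by ring
    by_cases hs14 : 14 ≤ b * s
    · have hnew := star_newE (D := d - 4) (by omega) hd hgm hgs hgI hb hc0
        (by
          have : cE b e ≤ b / 14 := min_le_left _ _
          linarith) ((min_le_right _ _).trans (min_le_right _ _)) hv hgv hk.v1 hn hg0 hs hs14
      have hDE : DE e (cE b e) d s = min ((2 : ℝ) ^ (-e * d)) ((1 + cE b e * s) ^ (-cE b e * d)) := by
        unfold DE
        rw [if_neg (by omega)]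
      rcases min_choice ((2 : ℝ) ^ (-e * d)) ((1 + cE b e * s) ^ (-cE b e * d)) with h | h
      · rw [hDE, h]
        exact hold
      · rw [hDE, h]
        exact hnew
    · push Not at hs14
      rw [DE_small hc0 ((min_le_right _ _).trans (min_le_left _ _)) hs]
      · exact hold
      · have h1 : cE b e ≤ b / 14 := min_le_left _ _
        have h2 : (0 : ℝ) ≤ s := Nat.cast_nonneg s
        nlinarith [mul_le_mul_of_nonneg_right h1 h2]
  D0 := DE_zero _ _ _
  D_nonneg := DE_nonneg (cE_pos hb he).le d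
  D_le := DE_le_one he.le d
  D_mul := DE_mul_le he.le (cE_pos hb he).le d

end Pool.Agent.Helper86.LQ
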