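import Pool.Agent.Helper85.LP.Defs

/-!
The mixed hierarchy is exact if the number `k` of the conditioned points is at least `τ(d) - 1`.
-/

set_option autoImplicit false

open Finset
open scoped RealInnerProductSpace

namespace Pool.Agent.Helper86.LQ

open Pool.Agent.Helper47.KP (Sph EE inner_self_S)
open Pool.Agent.Helper47.LB
open Pool.Agent.Helper85.LP (opM MFeas)

/-- the weights -/
noncomputable def lam (al q : ℕ) : ℝ :=
  if q < al then (q.factorial : ℝ) * (al - q - 1).factorial / al.factorial else 0

/-- the test vectors -/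
noncomputable def vt (al q j : ℕ) : ℝ := if j = 0 then -((al : ℝ) - q) else if j = 1 then 1 else 0

section

variable {X : Type} [DecidableEq X]

/-- the solution -/
noncomputable def FE (al : ℕ) (Q J J' : Finset X) : ℝ := lam al Q.card * (vt al Q.card J.card * vt al Q.card J'.card)

lemma sum_small (S : Finset X) (f : Finset X → ℝ) (hf : ∀ J, 2 ≤ J.card → f J = 0) :
    ∑ J ∈ S.powerset, f J = f ∅ + ∑ x ∈ S, f {x} := by
  induction S using Finset.induction_on with
  | empty => simp
  | insert a S ha ih =>
    rw [Finset.sum_powerset_insert ha, ih, Finset.sum_insert ha]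
    have h1 : ∑ J ∈ S.powerset, f (insert a J) = f {a} := by
      rw [Finset.sum_eq_single ∅]
      · simp
      · intro J hJ hne
        apply hf
        have haJ : a ∉ J := fun h => ha (Finset.mem_powerset.1 hJ h)
        rw [Finset.card_insert_of_notMem haJ]
        have : 0 < J.card := Finset.card_pos.2 (Finset.nonempty_iff_ne_empty.2 hne)
        omega
      · intro h
        exact absurd (Finset.empty_mem_powerset S) h
    rw [h1]
    ring

lemma sum_compl (S T : Finset X) (hT : T ⊆ S) (f : Finset X → ℝ) :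
    ∑ Q ∈ S.powerset, (if T = S \ Q then f Q else 0) = f (S \ T) := by
  rw [Finset.sum_eq_single (S \ T)]
  · rw [if_pos]
    rw [Finset.sdiff_sdiff_eq_self hT]
  · intro Q hQ hne
    rw [if_neg]
    intro h
    apply hne
    rw [h, Finset.sdiff_sdiff_eq_self (Finset.mem_powerset.1 hQ)]
  · intro h
    exact absurd (Finset.mem_powerset.2 Finset.sdiff_subset) h

/-- the operator -/
lemma opM_FE {k t al : ℕ} (ht : 1 ≤ t) (hk : al ≤ k + 1) (S : Finset X) :
    opM k t (FE al) S = lam al S.card * ((al : ℝ) - S.card) ^ 2 +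
      ∑ x ∈ S, (lam al (S \ {x}).card * (-2 * ((al : ℝ) - (S \ {x}).card))) +
      ∑ x ∈ S, ∑ y ∈ S, lam al (S \ ({x} ∪ {y})).card := by
  classical
  have e1 : opM k t (FE al) S = ∑ Q ∈ S.powerset, ∑ J ∈ S.powerset, ∑ J' ∈ S.powerset,
      if J ∪ J' = S \ Q then FE al Q J J' else 0 := by
    unfold opM
    refine Finset.sum_congr rfl fun Q _ => Finset.sum_congr rfl fun J _ => Finset.sum_congr rfl fun J' _ => ?_
    by_cases h : J ∪ J' = S \ Q
    · by_cases h1 : Q.card ≤ k ∧ J.card ≤ t ∧ J'.card ≤ t
      · rw [if_pos ⟨h, h1⟩, if_pos h]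
      · rw [if_neg (fun h2 => h1 h2.2), if_pos h]
        symm
        unfold FE
        by_cases hq : Q.card < al
        · by_cases hJ : J.card ≤ t
          · have hJ' : ¬ J'.card ≤ t := fun h3 => h1 ⟨by omega, hJ, h3⟩
            have : vt al Q.card J'.card = 0 := by
              unfold vt
              rw [if_neg (by omega), if_neg (by omega)]
            rw [this]
            ring
          · have : vt al Q.card J.card = 0 := by
              unfold vt
              rw [if_neg (by omega), if_neg (by omega)]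
            rw [this]
            ring
        · unfold lam
          rw [if_neg hq]
          ring
    · rw [if_neg (fun h2 => h h2.1), if_neg h]
  have e2 : ∀ Q : Finset X, ∑ J ∈ S.powerset, ∑ J' ∈ S.powerset,
      (if J ∪ J' = S \ Q then FE al Q J J' else 0) =
      (if (∅ : Finset X) = S \ Q then lam al Q.card * ((al : ℝ) - Q.card) ^ 2 else 0) +
      ∑ x ∈ S, (if {x} = S \ Q then lam al Q.card * (-2 * ((al : ℝ) - Q.card)) else 0) +
      ∑ x ∈ S, ∑ y ∈ S, (if {x} ∪ {y} = S \ Q then lam al Q.card else 0) := by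
    intro Q
    have v0 : vt al Q.card 0 = -((al : ℝ) - Q.card) := by simp [vt]
    have v1 : vt al Q.card 1 = 1 := by simp [vt]
    have vz : ∀ J : Finset X, 2 ≤ J.card → vt al Q.card J.card = 0 := by
      intro J hJ
      unfold vt
      rw [if_neg (by omega), if_neg (by omega)]
    have h1 : ∀ J : Finset X, ∑ J' ∈ S.powerset, (if J ∪ J' = S \ Q then FE al Q J J' else 0) =
        (if J ∪ ∅ = S \ Q then FE al Q J ∅ else 0) +
          ∑ y ∈ S, (if J ∪ {y} = S \ Q then FE al Q J {y} else 0) := by
      intro J
      refine sum_small S (fun J' => if J ∪ J' = S \ Q then FE al Q J J' else 0) fun J' hJ' => ?_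
      simp only [FE, vz J' hJ', mul_zero, ite_self]
    simp only [h1]
    rw [sum_small S (fun J => (if J ∪ ∅ = S \ Q then FE al Q J ∅ else 0) +
      ∑ y ∈ S, (if J ∪ {y} = S \ Q then FE al Q J {y} else 0)) fun J hJ => by
        simp only [FE, vz J hJ, zero_mul, mul_zero, ite_self, Finset.sum_const_zero, add_zero]]
    simp only [Finset.union_empty, Finset.empty_union, FE, Finset.card_empty, Finset.card_singleton, v0, v1]
    rw [Finset.sum_add_distrib]
    have h2 : ∑ x ∈ S, (if {x} = S \ Q then lam al Q.card * (-2 * ((al : ℝ) - Q.card)) else 0) =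
        ∑ x ∈ S, (if {x} = S \ Q then lam al Q.card * (-((al : ℝ) - Q.card) * 1) else 0) +
        ∑ x ∈ S, (if {x} = S \ Q then lam al Q.card * (1 * -((al : ℝ) - Q.card)) else 0) := by
      rw [← Finset.sum_add_distrib]
      refine Finset.sum_congr rfl fun x _ => ?_
      split_ifs <;> ring
    rw [h2]
    have h3 : (if (∅ : Finset X) = S \ Q then lam al Q.card * (-((al : ℝ) - Q.card) * -((al : ℝ) - Q.card)) else 0) =
        (if (∅ : Finset X) = S \ Q then lam al Q.card * ((al : ℝ) - Q.card) ^ 2 else 0) := by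
      split_ifs <;> ring
    rw [h3]
    have h4 : ∑ x ∈ S, ∑ y ∈ S, (if {x} ∪ {y} = S \ Q then lam al Q.card * (1 * 1) else 0) =
        ∑ x ∈ S, ∑ y ∈ S, (if {x} ∪ {y} = S \ Q then lam al Q.card else 0) := by
      refine Finset.sum_congr rfl fun x _ => Finset.sum_congr rfl fun y _ => ?_
      split_ifs <;> ring
    rw [h4]
    ring
  rw [e1]
  simp only [e2]
  rw [Finset.sum_add_distrib, Finset.sum_add_distrib]
  congr 1
  · congr 1
    · rw [sum_compl S ∅ (Finset.empty_subset S) fun Q => lam al Q.card * ((al : ℝ) - Q.card) ^ 2]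
      simp
    · rw [Finset.sum_comm]
      refine Finset.sum_congr rfl fun x hx => ?_
      exact sum_compl S {x} (Finset.singleton_subset_iff.2 hx) fun Q => lam al Q.card * (-2 * ((al : ℝ) - Q.card))
  · rw [Finset.sum_comm]
    refine Finset.sum_congr rfl fun x hx => ?_
    rw [Finset.sum_comm]
    refine Finset.sum_congr rfl fun y hy => ?_
    exact sum_compl S ({x} ∪ {y}) (Finset.union_subset (Finset.singleton_subset_iff.2 hx)
      (Finset.singleton_subset_iff.2 hy)) fun Q => lam al Q.card

/-- the value of the operator -/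
lemma opM_val {k t al : ℕ} (ht : 1 ≤ t) (hk : al ≤ k + 1) (S : Finset X) (h1 : 1 ≤ S.card) (h2 : S.card ≤ al) :
    opM k t (FE al) S = if S.card = 1 then -1 else 0 := by
  classical
  rw [opM_FE ht hk]
  set s := S.card with hs
  have c1 : ∀ x ∈ S, (S \ {x}).card = s - 1 := by
    intro x hx
    rw [Finset.card_sdiff_of_subset (Finset.singleton_subset_iff.2 hx), Finset.card_singleton]
  have e1 : ∑ x ∈ S, (lam al (S \ {x}).card * (-2 * ((al : ℝ) - (S \ {x}).card))) =
      s * (lam al (s - 1) * (-2 * ((al : ℝ) - (s - 1 : ℕ)))) := by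
    rw [Finset.sum_congr rfl fun x hx => by rw [c1 x hx], Finset.sum_const, nsmul_eq_mul]
  have e2 : ∑ x ∈ S, ∑ y ∈ S, lam al (S \ ({x} ∪ {y})).card =
      s * (lam al (s - 1) + ((s - 1 : ℕ) : ℝ) * lam al (s - 2)) := by
    have h3 : ∀ x ∈ S, ∑ y ∈ S, lam al (S \ ({x} ∪ {y})).card =
        lam al (s - 1) + ((s - 1 : ℕ) : ℝ) * lam al (s - 2) := by
      intro x hx
      rw [← Finset.insert_erase hx, Finset.sum_insert (Finset.notMem_erase x S), Finset.insert_erase hx]
      congr 1
      · rw [Finset.union_self, c1 x hx]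
      · have h4 : ∀ y ∈ S.erase x, lam al (S \ ({x} ∪ {y})).card = lam al (s - 2) := by
          intro y hy
          have hyx := Finset.ne_of_mem_erase hy
          have hyS := Finset.mem_of_mem_erase hy
          rw [Finset.card_sdiff_of_subset (Finset.union_subset (Finset.singleton_subset_iff.2 hx)
            (Finset.singleton_subset_iff.2 hyS)), Finset.card_union_of_disjoint (by
              rw [Finset.disjoint_singleton]; exact hyx.symm), Finset.card_singleton, Finset.card_singleton]
        rw [Finset.sum_congr rfl h4, Finset.sum_const, nsmul_eq_mul, Finset.card_erase_of_mem hx]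
    rw [Finset.sum_congr rfl h3, Finset.sum_const, nsmul_eq_mul]
  rw [e1, e2]
  have hal : (0 : ℝ) < al.factorial := by exact_mod_cast Nat.factorial_pos al
  obtain ⟨p, hp⟩ : ∃ p, s = p + 1 := ⟨s - 1, by omega⟩
  obtain ⟨r, hr⟩ : ∃ r, al = s + r := ⟨al - s, by omega⟩
  rw [hp] at hr ⊢
  -- the weights
  have l1 : lam al p = (p.factorial : ℝ) * r.factorial / al.factorial := by
    unfold lam
    rw [if_pos (by omega), show al - p - 1 = r by omega]
  have l0 : lam al (p + 1) * ((al : ℝ) - (p + 1 : ℕ)) ^ 2 =
      ((p + 1).factorial : ℝ) * r.factorial * r / al.factorial := by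
    rcases Nat.eq_zero_or_pos r with h | h
    · rw [h]
      have : (al : ℝ) - (p + 1 : ℕ) = 0 := by rw [hr, h]; push_cast; ring
      rw [this]
      simp
    · obtain ⟨q, rfl⟩ : ∃ q, r = q + 1 := ⟨r - 1, by omega⟩
      unfold lam
      rw [if_pos (by omega)]
      have h5 : al - (p + 1) - 1 = q := by omega
      have h6 : (al : ℝ) - (p + 1 : ℕ) = (q : ℝ) + 1 := by rw [hr]; push_cast; ring
      rw [h5, h6, Nat.factorial_succ q]
      push_cast
      ring
  have h7 : (al : ℝ) - (p : ℕ) = (r : ℝ) + 1 := by rw [hr]; push_cast; ring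
  simp only [Nat.add_sub_cancel]
  rw [l0, l1, h7, Nat.factorial_succ p]
  rcases Nat.eq_zero_or_pos p with h | h
  · subst h
    simp only [zero_add, if_true, Nat.factorial_zero, Nat.cast_one, Nat.cast_zero, zero_mul, add_zero]
    have h8 : (al.factorial : ℝ) = ((r : ℝ) + 1) * r.factorial := by
      rw [hr, show 0 + 1 + r = r + 1 by ring, Nat.factorial_succ]
      push_cast
      ring
    rw [h8]
    have h9 : (0 : ℝ) < r.factorial := by exact_mod_cast Nat.factorial_pos r
    field_simp
    push_cast
    ring
  · obtain ⟨q, rfl⟩ : ∃ q, p = q + 1 := ⟨p - 1, by omega⟩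
    rw [if_neg (by omega)]
    have h8 : q + 1 + 1 - 2 = q := by omega
    rw [h8]
    have l2 : lam al q = (q.factorial : ℝ) * ((r + 1) * r.factorial) / al.factorial := by
      unfold lam
      rw [if_pos (by omega)]
      have : al - q - 1 = r + 1 := by omega
      rw [this, Nat.factorial_succ]
      push_cast
      ring
    rw [l2, Nat.factorial_succ q]
    push_cast
    field_simp
    ring

end

/-- **the mixed hierarchy is exact** for `k ≥ τ(d) - 1` -/
theorem exactM {d k t al : ℕ} (ht : 1 ≤ t) (hal : 1 ≤ al) (hk : al ≤ k + 1)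
    (hS : ∀ S : Finset (Sph d), Separated S → S.card ≤ al) :
    ∃ F : Finset (Sph d) → Finset (Sph d) → Finset (Sph d) → ℝ, MFeas d k t F ∧ F ∅ ∅ ∅ = al := by
  classical
  refine ⟨FE al, ⟨?_, ?_, ?_, ?_⟩, ?_⟩
  · intro j p q _ _ _
    have hinj : ∀ {n : ℕ} (w : Fin n → Sph d), (∀ a b, a ≠ b → ⟪(w a : EE d), (w b : EE d)⟫ ≤ 1 / 2) →
        (univ.image w).card = n := by
      intro n w hw
      rw [Finset.card_image_of_injective, Finset.card_univ, Fintype.card_fin]
      intro a b hab
      by_contra hne
      have h1 := hw a b hne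
      rw [hab, inner_self_S] at h1
      norm_num at h1
    refine (continuousOn_const (c := lam al j * (vt al j p * vt al j q))).congr fun w hw => ?_
    obtain ⟨h1, h2, h3, -, -⟩ := hw
    show lam al (univ.image w.1).card * (vt al (univ.image w.1).card (univ.image w.2.1).card *
      vt al (univ.image w.1).card (univ.image w.2.2).card) = _
    rw [hinj _ h1, hinj _ h2, hinj _ h3]
  · intro Q S T _ _ _ _ _ _ _
    unfold FE
    ring
  · intro Q _ n S c _
    have h1 : ∑ i, ∑ j, c i * c j * FE al Q (S i) (S j) =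
        lam al Q.card * (∑ i, c i * vt al Q.card (S i).card) ^ 2 := by
      rw [sq, Finset.sum_mul_sum, Finset.mul_sum]
      refine Finset.sum_congr rfl fun i _ => ?_
      rw [Finset.mul_sum]
      refine Finset.sum_congr rfl fun j _ => ?_
      unfold FE
      ring
    rw [h1]
    apply mul_nonneg _ (sq_nonneg _)
    unfold lam
    split_ifs
    · positivity
    · exact le_rfl
  · intro S hne _ hsep
    have h1 : 1 ≤ S.card := Finset.card_pos.2 hne
    exact (opM_val ht hk S h1 (hS S hsep)).le
  · unfold FE
    rw [Finset.card_empty]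
    have h0 : lam al 0 = 1 / al := by
      unfold lam
      rw [if_pos (by omega)]
      obtain ⟨q, rfl⟩ : ∃ q, al = q + 1 := ⟨al - 1, by omega⟩
      rw [show q + 1 - 0 - 1 = q by omega, Nat.factorial_succ]
      have : (0 : ℝ) < q.factorial := by exact_mod_cast Nat.factorial_pos q
      push_cast
      rw [Nat.factorial_zero]
      field_simp
      norm_num
    have hal0 : (0 : ℝ) < al := by exact_mod_cast hal
    rw [h0]
    simp only [vt, if_true, Nat.cast_zero, sub_zero]
    field_simp

end Pool.Agent.Helper86.LQ
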