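import Pool.Agent.Helper86.LQ.DE
import Pool.Agent.Helper47.LB.Num3

/-!
M3 in the form of the stub file of the project LLK.
-/

set_option autoImplicit false

open MeasureTheory Finset
open scoped RealInnerProductSpace

namespace Pool.Agent.Helper86.LQ

open Pool.Agent.Helper47.KP (Bd pim sig Sph EE den PP Par)
open Pool.Agent.Helper47.LB
open Pool.Agent.Helper85.LP

lemma VV_lower {d : ℕ} (hd : 4 ≤ d) : ((3 : ℝ) / 4) ^ ((d : ℝ) / 2) ≤ VV d := by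
  unfold VV
  have e1 : √(3 / 4) ^ (d - 3) ≥ √(3 / 4) ^ d :=
    pow_le_pow_of_le_one (Real.sqrt_nonneg _) (Real.sqrt_le_one.2 (by norm_num)) (by omega)
  have e2 : ((3 : ℝ) / 4) ^ ((d : ℝ) / 2) = √(3 / 4) ^ d := by
    rw [Real.sqrt_eq_rpow, ← Real.rpow_natCast, ← Real.rpow_mul (by norm_num)]
    congr 1; ring
  have e3 : 1 ≤ √(2 * ((d - 3 : ℕ) : ℝ)) := by
    rw [Real.one_le_sqrt]
    have : (1 : ℝ) ≤ ((d - 3 : ℕ) : ℝ) := by exact_mod_cast (by omega : 1 ≤ d - 3)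
    linarith
  have e4 : 0 ≤ √(3 / 4) ^ (d - 3) := pow_nonneg (Real.sqrt_nonneg _) _
  rw [e2]
  calc √(3 / 4) ^ d ≤ 1 * √(3 / 4) ^ (d - 3) := by rw [one_mul]; exact e1
    _ ≤ _ := mul_le_mul_of_nonneg_right e3 e4

/-- **M3** (stars): from a density as in M2 to `KerD` with the constants `DE e c` -/
theorem kernelK_of {β e : ℝ} (hβ : 0 < β) (hβ1 : β ≤ 1 / 13) (he : 0 < e) (he1 : e ≤ 1 / 100) : ∃ c : ℝ, 0 < c ∧ ∃ d₀ : ℕ,
    ∀ (d : ℕ) [NeZero d], d₀ ≤ d → ∀ (G : ℝ) (g : ℝ → ℝ), Measurable g → (∀ t, 0 ≤ g t) → 1 ≤ G → (∀ t, g t ≤ G) →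
      (∀ t, |g t - 1| ≤ 1) → ∫ t, g t ∂(den d) = 1 → ∫ t, (g t - 1) ^ 2 ∂(den d) ≤ VV d →
      (∀ j, 1 ≤ j → |∫ t, g t * (PP d j).eval t ∂(den d)| ≤ VV d * 2 ^ (-e * d)) →
      (∀ j, 1 ≤ j → j ≤ ⌊β * ((d - 3 : ℕ) : ℝ)⌋₊ → ∫ t, g t * (PP d j).eval t ∂(den d) = 0) →
      KerD (sig d) (fun x y : Sph d => g ⟪(x : EE d), (y : EE d)⟫) G (VV d) (VV d * 2 ^ (-e * d)) (DE e c d) := by
  have _ := hβ1
  have _ := he1
  have hb : 0 < β / 2 := by positivity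
  obtain ⟨d₁, hd₁⟩ := VV_le_one
  refine ⟨cE (β / 2) e, cE_pos hb he, max d₁ 8, ?_⟩
  intro d _ hd G g hgm hg0 hG1 hgG hgs hgI hgv hgj hgn
  have hd8 : 8 ≤ d := (le_max_right _ _).trans hd
  have hV0 := VV_pos (show 4 ≤ d by omega)
  have hV1 := hd₁ d ((le_max_left _ _).trans hd)
  have hε0 : 0 ≤ VV d * (2 : ℝ) ^ (-e * d) := by positivity
  have hn : β / 2 * ((d : ℝ) - 2) ≤ (⌊β * ((d - 3 : ℕ) : ℝ)⌋₊ : ℝ) + 1 := by
    have h1 := (Nat.lt_floor_add_one (β * ((d - 3 : ℕ) : ℝ))).le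
    have h2 : ((d - 3 : ℕ) : ℝ) = d - 3 := by
      rw [Nat.cast_sub (by omega)]; norm_num
    rw [h2] at h1 ⊢
    have h3 : (8 : ℝ) ≤ d := by exact_mod_cast hd8
    nlinarith
  have hgG' : ∀ s, |g s| ≤ G := fun s => by
    rw [abs_of_nonneg (hg0 s)]; exact hgG s
  have hker : Ker (sig d) (fun x y : Sph d => g ⟪(x : EE d), (y : EE d)⟫) G (VV d)
      (VV d * (2 : ℝ) ^ (-e * d)) := by
    refine ⟨hgm.comp Pool.Agent.Helper47.KP.continuous_inner2.measurable, fun x y => ?_,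
      fun x y => hg0 _, fun x y => hgG _, hG1, fun x y => hgs _,
      fun x => ?_, hV0, hV1, hε0, op_bound (by omega) hgm hgG' hgI hε0 hgj⟩
    · show g _ = g _
      rw [real_inner_comm]
    · have h1 := Pool.Agent.Helper47.KP.int_zonal_den (show 3 ≤ d by omega) x
        (f := fun s => (g s - 1) ^ 2) ((hgm.sub_const 1).pow_const 2)
      show ∫ y : Sph d, (g ⟪(x : EE d), (y : EE d)⟫ - 1) ^ 2 ∂(sig d) ≤ VV d
      rw [h1]
      exact hgv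
  exact kerD_E hd8 hgm hgI hb he (VV_lower (by omega)) hn hgn hgs hgv hker le_rfl

end Pool.Agent.Helper86.LQ
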