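import Pool.Agent.Helper86.LQ.DE
import Pool.Agent.Helper9.LP.Num3

/-!
The numbers of the project LLK: block M4.
-/

set_option autoImplicit false

open Filter

namespace Pool.Agent.Helper86.LQ

open Pool.Agent.Helper47.LB (VV VV_pos)
open Pool.Agent.Helper9.LP (pow_VV_le one_le_pow_VV VV_le)

/-- the gain in the exponent -/
noncomputable def EX (e c : ℝ) (m : ℕ) : ℝ := max (e * Real.log 2) (c * Real.log (1 + c * m))

lemma DE_le_exp {e c : ℝ} (hc : 0 ≤ c) {d m : ℕ} (hm : 1 ≤ m) : DE e c d m ≤ Real.exp (-(EX e c m * d)) := by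
  have p1 : (0 : ℝ) < 1 + c * m := by positivity
  unfold EX
  rcases max_choice (e * Real.log 2) (c * Real.log (1 + c * m)) with h | h
  · rw [h]
    refine (DE_le_left hm).trans (le_of_eq ?_)
    rw [Real.rpow_def_of_pos (by norm_num)]
    congr 1; ring
  · rw [h]
    refine (DE_le_right hm).trans (le_of_eq ?_)
    rw [Real.rpow_def_of_pos p1]
    congr 1; ring

lemma ev_log_sqrt {κ C : ℝ} (hκ : 0 < κ) : ∀ᶠ d : ℕ in atTop, C + 3 * Real.log d ≤ κ * √d := by
  have h1 := (isLittleO_log_rpow_atTop (show (0 : ℝ) < 1 / 2 by norm_num)).bound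
    (show (0 : ℝ) < κ / 6 by positivity)
  have h2 := tendsto_natCast_atTop_atTop (R := ℝ) |>.eventually h1
  have h3 : Tendsto (fun d : ℕ => √(d : ℝ)) atTop atTop :=
    Real.tendsto_sqrt_atTop.comp tendsto_natCast_atTop_atTop
  filter_upwards [h2, h3.eventually_ge_atTop (2 * |C| / κ)] with d h4 h5
  rw [Real.norm_eq_abs, Real.norm_eq_abs, ← Real.sqrt_eq_rpow, abs_of_nonneg (Real.sqrt_nonneg _)] at h4
  have h6 := (le_abs_self (Real.log (d : ℝ))).trans h4
  have h7 : 2 * |C| ≤ κ * √d := by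
    rw [div_le_iff₀ hκ] at h5
    linarith
  have h8 := le_abs_self C
  linarith

/-- the part of the exponent with `m` -/
lemma partM {κ c : ℝ} (hκ : 0 < κ) (hc : 0 < c) : ∃ δ : ℝ, 0 < δ ∧ ∀ᶠ d : ℕ in atTop, ∀ m : ℕ, 1 ≤ m →
    (m : ℝ) ≤ δ * d → m * (4 + 1 / 2 * Real.log d) + 2 * m * Real.log (m + 1) ≤
      max κ (c / 4 * Real.log (1 + c * m)) * d := by
  have hlog : Tendsto (fun d : ℕ => Real.log d) atTop atTop :=
    Real.tendsto_log_atTop.comp tendsto_natCast_atTop_atTop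
  refine ⟨min (1 / 2) (c / 64), by positivity, ?_⟩
  filter_upwards [ev_log_sqrt (C := 8) hκ, hlog.eventually_ge_atTop (-4 * Real.log c),
    hlog.eventually_ge_atTop 8, eventually_ge_atTop 1] with d h1 h2 h3 h4 m hm hmd
  have hd0 : (0 : ℝ) < d := by exact_mod_cast h4
  have hd1 : (1 : ℝ) ≤ d := by exact_mod_cast h4
  have hm0 : (0 : ℝ) ≤ m := Nat.cast_nonneg m
  have hm1 : (1 : ℝ) ≤ m := by exact_mod_cast hm
  have hsq : √(d : ℝ) * √d = d := Real.mul_self_sqrt hd0.le
  have hs0 : 0 ≤ √(d : ℝ) := Real.sqrt_nonneg _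
  have hs1 : 1 ≤ √(d : ℝ) := by rw [Real.one_le_sqrt]; exact hd1
  rcases le_or_gt (m : ℝ) (√d) with hc1 | hc1
  · -- few points
    have b2 : Real.log ((m : ℝ) + 1) ≤ 1 + 1 / 2 * Real.log d := by
      have b3 : Real.log ((m : ℝ) + 1) ≤ Real.log (2 * √d) :=
        Real.log_le_log (by positivity) (by linarith)
      rw [Real.log_mul (by norm_num) (by positivity), Real.log_sqrt hd0.le] at b3
      have := Real.log_two_lt_d9
      linarith
    have b4 : m * (4 + 1 / 2 * Real.log d) + 2 * m * Real.log (m + 1) ≤ m * (8 + 3 * Real.log d) := by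
      have := mul_le_mul_of_nonneg_left b2 (show (0 : ℝ) ≤ 2 * m by positivity)
      nlinarith
    have b5 : m * (8 + 3 * Real.log d) ≤ √d * (κ * √d) := by
      refine mul_le_mul hc1 h1 (by linarith) hs0
    have b6 : √(d : ℝ) * (κ * √d) = κ * d := by rw [mul_left_comm, hsq]
    have b7 : κ * d ≤ max κ (c / 4 * Real.log (1 + c * m)) * d :=
      mul_le_mul_of_nonneg_right (le_max_left _ _) hd0.le
    linarith
  · -- many points
    have hmd' : (m : ℝ) ≤ d := hmd.trans (by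
      have := mul_le_mul_of_nonneg_right (min_le_left (1 / 2 : ℝ) (c / 64)) hd0.le
      linarith)
    have c1 : 1 / 4 * Real.log d ≤ Real.log (1 + c * m) := by
      have c2 : c * √d ≤ 1 + c * m := by nlinarith
      have c3 : Real.log (c * √d) ≤ Real.log (1 + c * m) := Real.log_le_log (by positivity) c2
      rw [Real.log_mul hc.ne' (by positivity), Real.log_sqrt hd0.le] at c3
      linarith
    have c4 : Real.log ((m : ℝ) + 1) ≤ 1 + Real.log d := by
      have b3 : Real.log ((m : ℝ) + 1) ≤ Real.log (2 * d) :=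
        Real.log_le_log (by positivity) (by linarith)
      rw [Real.log_mul (by norm_num) (by positivity)] at b3
      have := Real.log_two_lt_d9
      linarith
    have c5 : m * (4 + 1 / 2 * Real.log d) + 2 * m * Real.log (m + 1) ≤ m * (4 * Real.log d) := by
      have := mul_le_mul_of_nonneg_left c4 (show (0 : ℝ) ≤ 2 * m by positivity)
      nlinarith
    have c6 : (m : ℝ) * (4 * Real.log d) ≤ (c / 64 * d) * (4 * Real.log d) := by
      apply mul_le_mul_of_nonneg_right _ (by linarith)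
      exact hmd.trans (mul_le_mul_of_nonneg_right (min_le_right _ _) hd0.le)
    have c7 : (c / 64 * d) * (4 * Real.log d) ≤ c / 4 * Real.log (1 + c * m) * d := by
      have := mul_le_mul_of_nonneg_left c1 (show (0 : ℝ) ≤ c / 4 * d by positivity)
      nlinarith
    have c8 : c / 4 * Real.log (1 + c * m) * d ≤ max κ (c / 4 * Real.log (1 + c * m)) * d :=
      mul_le_mul_of_nonneg_right (le_max_right _ _) hd0.le
    linarith

/-- the main inequality -/
lemma mainE {c e : ℝ} (hc : 0 < c) (he : 0 < e) {d t m : ℕ} {x : ℝ} (hx : 0 ≤ x) (hd : 4 ≤ d) (ht : 1 ≤ t)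
    (hm : 1 ≤ m) (hmt : m ≤ t)
    (h1 : 3 * (t : ℝ) ≤ e * Real.log 2 / 8 * d) (h2 : 2 * (t : ℝ) ^ 2 * x ≤ e * Real.log 2 / 8 * d)
    (h3 : m * (4 + 1 / 2 * Real.log d) + 2 * m * Real.log (m + 1) ≤
      max (e * Real.log 2 / 4) (c / 4 * Real.log (1 + c * m)) * d) :
    ((t : ℝ) + 1) ^ 2 * 2 ^ t * (1 + x) ^ (2 * t ^ 2) *
      (8 * ((2 / √3) ^ d * (1 + c / 4 * t) ^ (c / 4 * d / t)) * VV d) ^ m * ((m : ℝ) + 1) ^ (2 * m) *
      DE e c d m ≤ 1 := by
  have hd0 : (0 : ℝ) < d := by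
    have : 0 < d := by omega
    exact_mod_cast this
  have ht0 : (0 : ℝ) < t := by exact_mod_cast ht
  have hm0 : (0 : ℝ) < m := by exact_mod_cast hm
  have hmt' : (m : ℝ) ≤ t := by exact_mod_cast hmt
  have hV := VV_pos hd
  set E := EX e c m with hE
  -- the factors
  have f1 : ((t : ℝ) + 1) ^ 2 ≤ Real.exp (2 * t) := by
    have := Real.add_one_le_exp (t : ℝ)
    calc ((t : ℝ) + 1) ^ 2 ≤ (Real.exp t) ^ 2 := pow_le_pow_left₀ (by positivity) this 2
      _ = Real.exp (2 * t) := by rw [← Real.exp_nat_mul]; norm_num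
  have f2 : (2 : ℝ) ^ t ≤ Real.exp t := by
    have h4 : (2 : ℝ) ≤ Real.exp 1 := by
      have := Real.add_one_le_exp (1 : ℝ)
      linarith
    calc (2 : ℝ) ^ t ≤ (Real.exp 1) ^ t := pow_le_pow_left₀ (by norm_num) h4 t
      _ = Real.exp t := by rw [← Real.exp_nat_mul, mul_one]
  have f3 : (1 + x) ^ (2 * t ^ 2) ≤ Real.exp (2 * (t : ℝ) ^ 2 * x) := by
    have h4 : 1 + x ≤ Real.exp x := by
      have := Real.add_one_le_exp x
      linarith
    calc (1 + x) ^ (2 * t ^ 2) ≤ (Real.exp x) ^ (2 * t ^ 2) := pow_le_pow_left₀ (by positivity) h4 _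
      _ = Real.exp (2 * (t : ℝ) ^ 2 * x) := by
          rw [← Real.exp_nat_mul]
          push_cast
          ring_nf
  -- the power of `N`
  set W : ℝ := (1 + c / 4 * t) ^ (c / 4 * d / t) with hW
  have hW0 : 0 < W := by rw [hW]; positivity
  have f4 : 8 * ((2 / √3) ^ d * W) * VV d ≤ Real.exp (4 + 1 / 2 * Real.log d) * W := by
    have h4 := pow_VV_le hd
    have h5 : Real.exp (4 + 1 / 2 * Real.log d) = Real.exp 4 * √d := by
      rw [Real.exp_add, Real.sqrt_eq_rpow, Real.rpow_def_of_pos hd0]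
      congr 2; ring
    have h6 : (18 : ℝ) ≤ Real.exp 4 := by
      have h7 : (2.7 : ℝ) ≤ Real.exp 1 := by
        have := Real.exp_one_gt_d9
        linarith
      calc (18 : ℝ) ≤ 2.7 ^ 4 := by norm_num
        _ ≤ (Real.exp 1) ^ 4 := pow_le_pow_left₀ (by norm_num) h7 4
        _ = Real.exp 4 := by rw [← Real.exp_nat_mul]; norm_num
    rw [h5]
    calc 8 * ((2 / √3) ^ d * W) * VV d = 8 * ((2 / √3) ^ d * VV d) * W := by ring
      _ ≤ 8 * (2.18 * √d) * W := by gcongr
      _ = (17.44 * √d) * W := by ring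
      _ ≤ (Real.exp 4 * √d) * W := by
          apply mul_le_mul_of_nonneg_right _ hW0.le
          apply mul_le_mul_of_nonneg_right _ (Real.sqrt_nonneg _)
          linarith
  have f5 : W ^ m ≤ Real.exp (c / 4 * Real.log (1 + c * m) * d) := by
    have h5 : W ^ m = ((1 + c / 4 * t) ^ ((m : ℝ) / t)) ^ (c / 4 * d) := by
      rw [hW, ← Real.rpow_natCast, ← Real.rpow_mul (by positivity), ← Real.rpow_mul (by positivity)]
      congr 1
      field_simp
    have h6 : (1 + c / 4 * t) ^ ((m : ℝ) / t) ≤ 1 + c * m := by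
      have h7 := rpow_one_add_le_one_add_mul_self (s := c / 4 * t) (p := (m : ℝ) / t)
        (by
          have : 0 ≤ c / 4 * t := by positivity
          linarith) (by positivity) (by rw [div_le_one ht0]; exact hmt')
      have h8 : (m : ℝ) / t * (c / 4 * t) = c / 4 * m := by field_simp
      rw [h8] at h7
      nlinarith
    have p1 : (0 : ℝ) < 1 + c * m := by positivity
    rw [h5]
    calc ((1 + c / 4 * t) ^ ((m : ℝ) / t)) ^ (c / 4 * d) ≤ (1 + c * m) ^ (c / 4 * d) :=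
          Real.rpow_le_rpow (by positivity) h6 (by positivity)
      _ = Real.exp (c / 4 * Real.log (1 + c * m) * d) := by
          rw [Real.rpow_def_of_pos p1]
          congr 1; ring
  have f6 : (8 * ((2 / √3) ^ d * W) * VV d) ^ m ≤
      Real.exp (m * (4 + 1 / 2 * Real.log d)) * Real.exp (c / 4 * Real.log (1 + c * m) * d) := by
    calc (8 * ((2 / √3) ^ d * W) * VV d) ^ m ≤ (Real.exp (4 + 1 / 2 * Real.log d) * W) ^ m :=
          pow_le_pow_left₀ (by positivity) f4 m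
      _ = Real.exp (m * (4 + 1 / 2 * Real.log d)) * W ^ m := by rw [mul_pow, ← Real.exp_nat_mul]
      _ ≤ _ := mul_le_mul_of_nonneg_left f5 (Real.exp_pos _).le
  have f7 : ((m : ℝ) + 1) ^ (2 * m) = Real.exp (2 * m * Real.log (m + 1)) := by
    rw [← Real.rpow_natCast, Real.rpow_def_of_pos (by positivity)]
    congr 1
    push_cast
    ring
  have f8 := DE_le_exp (e := e) hc.le (d := d) hm
  rw [← hE] at f8
  -- the product
  have g1 : ((t : ℝ) + 1) ^ 2 * 2 ^ t * (1 + x) ^ (2 * t ^ 2) *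
      (8 * ((2 / √3) ^ d * W) * VV d) ^ m * ((m : ℝ) + 1) ^ (2 * m) * DE e c d m ≤
      Real.exp (2 * t) * Real.exp t * Real.exp (2 * (t : ℝ) ^ 2 * x) *
        (Real.exp (m * (4 + 1 / 2 * Real.log d)) * Real.exp (c / 4 * Real.log (1 + c * m) * d)) *
        Real.exp (2 * m * Real.log (m + 1)) * Real.exp (-(E * d)) := by
    rw [f7]
    have hDE := DE_nonneg (e := e) hc.le d m
    gcongr
  refine g1.trans ?_
  rw [← Real.exp_add, ← Real.exp_add, ← Real.exp_add, ← Real.exp_add, ← Real.exp_add, ← Real.exp_add,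
    Real.exp_le_one_iff]
  -- the exponent
  have hE1 : e * Real.log 2 ≤ E := le_max_left _ _
  have hE2 : c * Real.log (1 + c * m) ≤ E := le_max_right _ _
  have hE3 : max (e * Real.log 2 / 4) (c / 4 * Real.log (1 + c * m)) ≤ E / 4 :=
    max_le (by linarith) (by linarith)
  have k1 := mul_le_mul_of_nonneg_right hE1 hd0.le
  have k2 := mul_le_mul_of_nonneg_right hE2 hd0.le
  have k3 := mul_le_mul_of_nonneg_right hE3 hd0.le
  have hE0 : 0 < e * Real.log 2 := mul_pos he (Real.log_pos (by norm_num))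
  have k4 : 0 < e * Real.log 2 * d := mul_pos hE0 hd0
  nlinarith

/-- **M4** (numbers) -/
theorem numE {η η' e c : ℝ} (h0 : 0 < η) (h : η < η') (he : 0 < e) (hc : 0 < c) :
    ∃ a δ : ℝ, 0 < a ∧ 0 < δ ∧ ∃ d₀ : ℕ, ∀ d : ℕ, d₀ ≤ d → ∀ t k : ℕ, 1 ≤ t → (t : ℝ) ≤ δ * d →
      (k : ℝ) ≤ 2 ^ (η * d) → ∃ N : ℝ, 0 < N ∧ 1 ≤ N * VV d ∧ 4 * VV d ≤ 1 ∧
        (1 + (2 : ℝ) ^ (-η' * d)) ^ k ≤ 2 ∧ (k : ℝ) * 2 ^ (-η' * d) ≤ 1 / 2 ∧
        (∀ m : ℕ, 1 ≤ m → m ≤ t → ((t : ℝ) + 1) ^ 2 * 2 ^ t * (1 + (2 : ℝ) ^ (-η' * d)) ^ (2 * t ^ 2) *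
          (8 * N * VV d) ^ m * ((m : ℝ) + 1) ^ (2 * m) * DE e c d m ≤ 1) ∧
        (2 / √3) ^ d * (1 + a * t) ^ (a * d / t) ≤ N := by
  have hl2 : 0 < Real.log 2 := Real.log_pos (by norm_num)
  have hκ : 0 < e * Real.log 2 / 4 := by positivity
  obtain ⟨δ₁, hδ₁, H⟩ := partM hκ hc
  set δ : ℝ := min (min δ₁ 1) (e * Real.log 2 / 24) with hδ
  have hδ0 : 0 < δ := by rw [hδ]; positivity
  -- the conditions on `d`
  have hr : |(2 : ℝ) ^ (-(η' - η))| < 1 := by
    rw [abs_of_pos (by positivity)]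
    exact Real.rpow_lt_one_of_one_lt_of_neg (by norm_num) (by linarith)
  have hr' : |(2 : ℝ) ^ (-η')| < 1 := by
    rw [abs_of_pos (by positivity)]
    exact Real.rpow_lt_one_of_one_lt_of_neg (by norm_num) (by linarith)
  have hv : |√3 / 2| < 1 := by
    rw [abs_of_pos (by positivity), div_lt_one (by norm_num), Real.sqrt_lt' (by norm_num)]
    norm_num
  have t1 := (tendsto_pow_atTop_nhds_zero_of_abs_lt_one hr).eventually_le_const
    (show (0 : ℝ) < 1 / 2 by norm_num)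
  have t2 := (tendsto_pow_const_mul_const_pow_of_abs_lt_one 1 hr').eventually_le_const
    (show (0 : ℝ) < e * Real.log 2 / 16 by positivity)
  have t3 := (tendsto_pow_const_mul_const_pow_of_abs_lt_one 1 hv).eventually_le_const
    (show (0 : ℝ) < 1 / 16 by norm_num)
  obtain ⟨d₀, hd₀⟩ := ((((t1.and t2).and t3).and H).and (eventually_ge_atTop 4)).exists_forall_of_atTop
  refine ⟨c / 4, δ, by positivity, hδ0, d₀, fun d hd t k ht htd hk => ?_⟩
  obtain ⟨⟨⟨⟨u1, u2⟩, u3⟩, u4⟩, u5⟩ := hd₀ d hd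
  have hd0 : (0 : ℝ) < d := by
    have : 0 < d := by omega
    exact_mod_cast this
  have ht0 : (0 : ℝ) < t := by exact_mod_cast ht
  have hV := VV_pos u5
  set x : ℝ := (2 : ℝ) ^ (-η' * d) with hx
  have hx0 : 0 < x := by rw [hx]; positivity
  have hkx : (k : ℝ) * x ≤ 1 / 2 := by
    calc (k : ℝ) * x ≤ 2 ^ (η * d) * x := mul_le_mul_of_nonneg_right hk hx0.le
      _ = ((2 : ℝ) ^ (-(η' - η))) ^ d := by
          rw [hx, ← Real.rpow_add (by norm_num), ← Real.rpow_natCast, ← Real.rpow_mul (by norm_num)]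
          congr 1; ring
      _ ≤ 1 / 2 := u1
  have hx2 : x = ((2 : ℝ) ^ (-η')) ^ d := by
    rw [hx, ← Real.rpow_natCast, ← Real.rpow_mul (by norm_num)]
  have hW : 1 ≤ (1 + c / 4 * (t : ℝ)) ^ (c / 4 * d / t) := by
    apply Real.one_le_rpow
    · have : 0 ≤ c / 4 * (t : ℝ) := by positivity
      linarith
    · positivity
  refine ⟨(2 / √3) ^ d * (1 + c / 4 * (t : ℝ)) ^ (c / 4 * d / t), by positivity, ?_, ?_, ?_, hkx, ?_, le_rfl⟩
  · have h7 : (2 / √3) ^ d * (1 + c / 4 * (t : ℝ)) ^ (c / 4 * d / t) * VV d =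
        ((2 / √3) ^ d * VV d) * (1 + c / 4 * (t : ℝ)) ^ (c / 4 * d / t) := by ring
    rw [h7]
    exact one_le_mul_of_one_le_of_one_le (one_le_pow_VV u5) hW
  · have := VV_le u5
    linarith
  · have h4 : 1 + x ≤ Real.exp x := by
      have := Real.add_one_le_exp x
      linarith
    calc (1 + x) ^ k ≤ (Real.exp x) ^ k := pow_le_pow_left₀ (by positivity) h4 _
      _ = Real.exp (k * x) := by rw [← Real.exp_nat_mul]
      _ ≤ Real.exp (1 / 2) := Real.exp_le_exp.2 hkx
      _ ≤ 2 := by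
          have h5 : Real.exp (1 / 2) ^ 2 = Real.exp 1 := by rw [← Real.exp_nat_mul]; norm_num
          have h6 := Real.exp_one_lt_d9
          have h7 : 0 < Real.exp (1 / 2) := Real.exp_pos _
          nlinarith
  · intro m hm hmt
    have hmt' : (m : ℝ) ≤ t := by exact_mod_cast hmt
    have hδ1 : δ ≤ δ₁ := (min_le_left _ _).trans (min_le_left _ _)
    have hδ2 : δ ≤ 1 := (min_le_left _ _).trans (min_le_right _ _)
    have hδ3 : δ ≤ e * Real.log 2 / 24 := min_le_right _ _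
    have htd1 : (t : ℝ) ≤ d := htd.trans (by nlinarith)
    refine mainE hc he hx0.le u5 ht hm hmt ?_ ?_ ?_
    · have := mul_le_mul_of_nonneg_right hδ3 hd0.le
      linarith
    · have h8 : (d : ℝ) * x ≤ e * Real.log 2 / 16 := by
        rw [hx2]
        have := u2
        rw [pow_one] at this
        exact this
      have h9 : (t : ℝ) ^ 2 ≤ d * d := by nlinarith
      have h10 : 2 * (t : ℝ) ^ 2 * x ≤ 2 * (d * d) * x := by
        apply mul_le_mul_of_nonneg_right _ hx0.le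
        linarith
      have h11 : 2 * ((d : ℝ) * d) * x = 2 * (d * x) * d := by ring
      have h12 := mul_le_mul_of_nonneg_right h8 (show (0 : ℝ) ≤ 2 * d by positivity)
      nlinarith
    · exact u4 m hm (hmt'.trans (htd.trans (mul_le_mul_of_nonneg_right hδ1 hd0.le)))

end Pool.Agent.Helper86.LQ
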